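import Pool.Agent.Helper13.Ram5.Alg

set_option autoImplicit false

namespace Pool.Agent.Helper68.Ram5

open Pool.Agent.Helper10.Ram5
open Pool.Agent.Helper13.Ram5 (den_pos act_mem act_mul act_one nrd_inv dist_act)
open MeasureTheory Topology
open scoped Quaternion

theorem isOpen_UH : IsOpen UH := isOpen_lt continuous_const continuous_snd

/-- numerator of the first coordinate of `act g p` -/
noncomputable def num (g : GL2H) (p : Pt) : ℍ[ℝ] :=
  (g.1 0 0 * p.1 + g.1 0 1) * star (g.1 1 0 * p.1 + g.1 1 1)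
      + p.2 ^ 2 • (g.1 0 0 * star (g.1 1 0))

theorem act_eq (g : GL2H) (p : Pt) : act g p = ((den g p)⁻¹ • num g p, p.2 / den g p) := rfl

theorem continuous_den (g : GL2H) : Continuous (den g) := by
  unfold den; fun_prop

theorem continuous_num (g : GL2H) : Continuous (num g) := by
  unfold num; fun_prop

theorem measurable_act (g : GL2H) : Measurable (act g) := by
  have hd : Measurable (den g) := (continuous_den g).measurable
  have h1 : Measurable fun p : Pt => (den g p)⁻¹ • num g p := by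
    have hc : Continuous fun x : ℝ × ℍ[ℝ] => x.1 • x.2 := continuous_fst.smul continuous_snd
    exact hc.measurable.comp (hd.inv.prodMk (continuous_num g).measurable)
  have h2 : Measurable fun p : Pt => p.2 / den g p := measurable_snd.div hd
  exact h1.prodMk h2

theorem contDiff_den (g : GL2H) : ContDiff ℝ 2 (den g) := by
  unfold den
  have h : ContDiff ℝ 2 fun p : Pt => g.1 1 0 * p.1 + g.1 1 1 :=
    (contDiff_const.mul contDiff_fst).add contDiff_const
  exact (h.norm_sq ℝ).add (contDiff_const.mul (contDiff_snd.pow 2))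

/-- `star` as a continuous linear map -/
noncomputable def starC : ℍ[ℝ] →L[ℝ] ℍ[ℝ] where
  toFun := star
  map_add' x y := star_add x y
  map_smul' c x := by
    ext <;> simp
  cont := continuous_star

theorem contDiff_num (g : GL2H) : ContDiff ℝ 2 (num g) := by
  unfold num
  have h0 : ContDiff ℝ 2 fun p : Pt => g.1 1 0 * p.1 + g.1 1 1 :=
    (contDiff_const.mul contDiff_fst).add contDiff_const
  have h : ContDiff ℝ 2 fun p : Pt => star (g.1 1 0 * p.1 + g.1 1 1) :=
    starC.contDiff.comp h0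
  have h'' : ContDiff ℝ 2 fun p : Pt => g.1 0 0 * p.1 + g.1 0 1 :=
    (contDiff_const.mul contDiff_fst).add contDiff_const
  exact (h''.mul h).add ((contDiff_snd.pow 2).smul contDiff_const)

theorem contDiffOn_act (g : GL2H) : ContDiffOn ℝ 2 (act g) UH := by
  have hd : ContDiffOn ℝ 2 (fun p : Pt => (den g p)⁻¹) UH :=
    (contDiff_den g).contDiffOn.inv fun p hp => (den_pos g hp).ne'
  have h1 : ContDiffOn ℝ 2 (fun p : Pt => ((den g p)⁻¹) • num g p) UH :=
    hd.smul (contDiff_num g).contDiffOn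
  have h2 : ContDiffOn ℝ 2 (fun p : Pt => p.2 * (den g p)⁻¹) UH :=
    contDiff_snd.contDiffOn.mul hd
  refine (h1.prodMk h2).congr fun p hp => ?_
  rw [act_eq]
  refine Prod.ext rfl ?_
  simp only [div_eq_mul_inv]

theorem differentiableAt_act (g : GL2H) {p : Pt} (hp : p ∈ UH) : DifferentiableAt ℝ (act g) p :=
  ((contDiffOn_act g).contDiffAt (isOpen_UH.mem_nhds hp)).differentiableAt (by norm_num)

/-- Euclidean quadratic form -/
noncomputable def Q (v : Pt) : ℝ := ‖v.1‖ ^ 2 + v.2 ^ 2

theorem continuous_Q : Continuous Q := by unfold Q; fun_prop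

theorem Q_smul (t : ℝ) (v : Pt) : Q (t • v) = t ^ 2 * Q v := by
  unfold Q
  simp only [Prod.smul_fst, Prod.smul_snd, norm_smul, smul_eq_mul, Real.norm_eq_abs, mul_pow,
    sq_abs]
  ring

theorem Q_act (g : GL2H) (hg : nrd g.1 = 1) {p q : Pt} (hp : p ∈ UH) (hq : q ∈ UH) :
    Q (act g p - act g q) * (den g p * den g q) = Q (p - q) := dist_act g hg hp hq

theorem Q_fderiv (g : GL2H) (hg : nrd g.1 = 1) {p : Pt} (hp : p ∈ UH) (e : Pt) :
    Q (fderiv ℝ (act g) p e) * den g p ^ 2 = Q e := by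
  have h0 : HasDerivAt (fun t : ℝ => act g (p + t • e)) (fderiv ℝ (act g) p e) 0 := by
    have h1 : HasDerivAt (fun t : ℝ => p + t • e) e 0 := by
      simpa using ((hasDerivAt_id (0 : ℝ)).smul_const e).const_add p
    have h2 : HasFDerivAt (act g) (fderiv ℝ (act g) p) (p + (0 : ℝ) • e) := by
      simpa using (differentiableAt_act g hp).hasFDerivAt
    exact h2.comp_hasDerivAt 0 h1
  rw [hasDerivAt_iff_tendsto_slope_zero] at h0
  simp only [zero_add, zero_smul, add_zero] at h0
  have hc : Continuous fun t : ℝ => p + t • e := by fun_prop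
  have h3 : Filter.Tendsto (fun t : ℝ => Q (t⁻¹ • (act g (p + t • e) - act g p)) *
      (den g (p + t • e) * den g p)) (𝓝[≠] 0) (𝓝 (Q (fderiv ℝ (act g) p e) *
        (den g p * den g p))) := by
    refine Filter.Tendsto.mul ((continuous_Q.tendsto _).comp h0) (Filter.Tendsto.mul ?_
      tendsto_const_nhds)
    have h4 : Filter.Tendsto (fun t : ℝ => den g (p + t • e)) (𝓝 0) (𝓝 (den g p)) := by
      have := ((continuous_den g).comp hc).tendsto (0 : ℝ)
      simpa [Function.comp_def] using this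
    exact h4.mono_left nhdsWithin_le_nhds
  have h5 : ∀ᶠ t : ℝ in 𝓝[≠] 0, Q (t⁻¹ • (act g (p + t • e) - act g p)) *
      (den g (p + t • e) * den g p) = Q e := by
    have h6 : ∀ᶠ t : ℝ in 𝓝[≠] 0, p + t • e ∈ UH := by
      have : ∀ᶠ t : ℝ in 𝓝 0, p + t • e ∈ UH := by
        apply hc.continuousAt.eventually_mem
        simpa using isOpen_UH.mem_nhds hp
      exact this.filter_mono nhdsWithin_le_nhds
    have h7 : ∀ᶠ t : ℝ in 𝓝[≠] 0, t ≠ 0 := eventually_mem_nhdsWithin
    filter_upwards [h6, h7] with t ht ht0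
    rw [Q_smul, mul_assoc, Q_act g hg ht hp]
    have : p + t • e - p = t • e := by abel
    rw [this, Q_smul, ← mul_assoc, ← mul_pow, inv_mul_cancel₀ ht0, one_pow, one_mul]
  have h8 := tendsto_nhds_unique (h3.congr' h5) tendsto_const_nhds
  rw [pow_two]
  exact h8

/-- real coordinates -/
noncomputable def coordEquiv : Pt ≃ₗ[ℝ] (Fin 5 → ℝ) where
  toFun p := ![p.1.re, p.1.imI, p.1.imJ, p.1.imK, p.2]
  invFun v := (⟨v 0, v 1, v 2, v 3⟩, v 4)
  map_add' p q := by
    ext i; fin_cases i <;> simp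
  map_smul' c p := by
    ext i; fin_cases i <;> simp
  left_inv p := by
    refine Prod.ext ?_ ?_
    · ext <;> simp
    · simp
  right_inv v := by
    ext i; fin_cases i <;> simp

/-- the real basis `dir` -/
noncomputable def cb : Module.Basis (Fin 5) ℝ Pt := Module.Basis.ofEquivFun coordEquiv

theorem cb_eq (k : Fin 5) : cb k = dir k := by
  simp only [cb, Module.Basis.coe_ofEquivFun]
  apply coordEquiv.injective
  rw [LinearEquiv.apply_symm_apply]
  ext i
  fin_cases k <;> fin_cases i <;> simp [coordEquiv, dir]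

theorem cb_repr (v : Pt) (i : Fin 5) : cb.repr v i = coordEquiv v i := by
  simp [cb, Module.Basis.ofEquivFun_repr_apply]

theorem Q_coord (v : Pt) : Q v = ∑ i, coordEquiv v i ^ 2 := by
  unfold Q
  rw [Fin.sum_univ_five, pow_two ‖v.1‖, ← Quaternion.normSq_eq_norm_mul_self,
    Quaternion.normSq_def']
  simp [coordEquiv]

/-- matrix of the derivative -/
noncomputable def A (g : GL2H) (p : Pt) : Matrix (Fin 5) (Fin 5) ℝ :=
  fun i k => coordEquiv (fderiv ℝ (act g) p (dir k)) i

theorem coord_dir (k i : Fin 5) : coordEquiv (dir k) i = if i = k then 1 else 0 := by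
  fin_cases k <;> fin_cases i <;> simp [coordEquiv, dir]

theorem A_transpose_mul (g : GL2H) (hg : nrd g.1 = 1) {p : Pt} (hp : p ∈ UH) :
    (A g p).transpose * A g p = (den g p ^ 2)⁻¹ • (1 : Matrix (Fin 5) (Fin 5) ℝ) := by
  have hD : den g p ≠ 0 := (den_pos g hp).ne'
  have key : ∀ e : Pt, ∑ i, coordEquiv (fderiv ℝ (act g) p e) i ^ 2
      = (den g p ^ 2)⁻¹ * ∑ i, coordEquiv e i ^ 2 := by
    intro e
    rw [← Q_coord, ← Q_coord, ← Q_fderiv g hg hp e]
    field_simp
  ext k l
  rw [Matrix.mul_apply]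
  simp only [Matrix.transpose_apply, A, Matrix.smul_apply, smul_eq_mul]
  have h1 := key (dir k + dir l)
  have h2 := key (dir k)
  have h3 := key (dir l)
  simp only [map_add, Pi.add_apply, add_sq, Finset.sum_add_distrib, coord_dir] at h1 h2 h3
  have h4 : ∑ i : Fin 5, 2 * (if i = k then (1 : ℝ) else 0) * (if i = l then 1 else 0)
      = 2 * (1 : Matrix (Fin 5) (Fin 5) ℝ) k l := by
    rw [Matrix.one_apply]
    by_cases hkl : k = l
    · subst hkl; simp
    · simp only [hkl, if_false, mul_zero]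
      apply Finset.sum_eq_zero
      intro i _
      by_cases hi : i = k
      · subst hi; simp [hkl]
      · simp [hi]
  have h5 : ∑ i : Fin 5, 2 * coordEquiv (fderiv ℝ (act g) p (dir k)) i *
      coordEquiv (fderiv ℝ (act g) p (dir l)) i
      = 2 * ∑ i : Fin 5, coordEquiv (fderiv ℝ (act g) p (dir k)) i *
      coordEquiv (fderiv ℝ (act g) p (dir l)) i := by
    rw [Finset.mul_sum]; refine Finset.sum_congr rfl fun i _ => by ring
  rw [h4, h5] at h1
  linarith

theorem A_mul_transpose (g : GL2H) (hg : nrd g.1 = 1) {p : Pt} (hp : p ∈ UH) :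
    A g p * (A g p).transpose = (den g p ^ 2)⁻¹ • (1 : Matrix (Fin 5) (Fin 5) ℝ) := by
  have hD : den g p ^ 2 ≠ 0 := pow_ne_zero 2 (den_pos g hp).ne'
  have h1 : (den g p ^ 2 • (A g p).transpose) * A g p = 1 := by
    rw [Matrix.smul_mul, A_transpose_mul g hg hp, smul_smul, mul_inv_cancel₀ hD, one_smul]
  have h2 := mul_eq_one_comm.mp h1
  rw [Matrix.mul_smul] at h2
  rw [← h2, smul_smul, inv_mul_cancel₀ hD, one_smul]

theorem det_sq (g : GL2H) (hg : nrd g.1 = 1) {p : Pt} (hp : p ∈ UH) :
    (A g p).det ^ 2 = ((den g p ^ 5)⁻¹) ^ 2 := by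
  have h := congrArg Matrix.det (A_transpose_mul g hg hp)
  rw [Matrix.det_mul, Matrix.det_transpose, Matrix.det_smul, Matrix.det_one, Fintype.card_fin]
    at h
  rw [pow_two, h]
  have hD : den g p ≠ 0 := (den_pos g hp).ne'
  field_simp

theorem det_fderiv (g : GL2H) (p : Pt) : (fderiv ℝ (act g) p).det = (A g p).det := by
  rw [ContinuousLinearMap.det, ← LinearMap.det_toMatrix cb]
  congr 1
  ext i k
  rw [LinearMap.toMatrix_apply, cb_eq, cb_repr]
  rfl

theorem abs_det_fderiv (g : GL2H) (hg : nrd g.1 = 1) {p : Pt} (hp : p ∈ UH) :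
    |(fderiv ℝ (act g) p).det| = (den g p ^ 5)⁻¹ := by
  have hD : 0 < den g p := den_pos g hp
  rw [det_fderiv, ← abs_of_pos (by positivity : (0 : ℝ) < (den g p ^ 5)⁻¹)]
  exact (sq_eq_sq_iff_abs_eq_abs _ _).mp (det_sq g hg hp)

/-- decomposition of a vector along the coordinate directions -/
theorem decomp (v : Pt) : v = ∑ i, coordEquiv v i • dir i := by
  have h := cb.sum_repr v
  simp only [cb_repr, cb_eq] at h
  exact h.symm

theorem clm_apply (F : Pt →L[ℝ] ℂ) (v : Pt) :
    F v = ∑ i, (coordEquiv v i : ℂ) * F (dir i) := by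
  conv_lhs => rw [decomp v]
  simp only [map_sum, map_smul, Complex.real_smul]

/-- the derivative is a similarity of ratio `1 / den` -/
theorem sum_fderiv (g : GL2H) (hg : nrd g.1 = 1) {p : Pt} (hp : p ∈ UH) (F H : Pt →L[ℝ] ℂ) :
    ∑ k : Fin 5, F (fderiv ℝ (act g) p (dir k)) * H (fderiv ℝ (act g) p (dir k))
      = (∑ k : Fin 5, F (dir k) * H (dir k)) / (den g p : ℂ) ^ 2 := by
  have h1 : ∀ k : Fin 5, F (fderiv ℝ (act g) p (dir k)) * H (fderiv ℝ (act g) p (dir k))
      = ∑ i : Fin 5, ∑ j : Fin 5, ((A g p i k * A g p j k : ℝ) : ℂ) * (F (dir i) * H (dir j)) := by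
    intro k
    rw [clm_apply F, clm_apply H, Finset.sum_mul_sum]
    refine Finset.sum_congr rfl fun i _ => Finset.sum_congr rfl fun j _ => ?_
    simp only [A]
    push_cast
    ring
  simp only [h1]
  rw [Finset.sum_comm]
  have h2 : ∀ i : Fin 5, ∑ k : Fin 5, ∑ j : Fin 5,
      ((A g p i k * A g p j k : ℝ) : ℂ) * (F (dir i) * H (dir j))
      = F (dir i) * H (dir i) / (den g p : ℂ) ^ 2 := by
    intro i
    rw [Finset.sum_comm]
    have h3 : ∀ j : Fin 5, ∑ k : Fin 5, ((A g p i k * A g p j k : ℝ) : ℂ) * (F (dir i) * H (dir j))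
        = (((A g p * (A g p).transpose) i j : ℝ) : ℂ) * (F (dir i) * H (dir j)) := by
      intro j
      rw [Matrix.mul_apply, ← Finset.sum_mul]
      simp only [Matrix.transpose_apply]
      push_cast
      rfl
    simp only [h3, A_mul_transpose g hg hp, Matrix.smul_apply, smul_eq_mul]
    rw [Finset.sum_eq_single i]
    · rw [Matrix.one_apply_eq]
      push_cast
      ring
    · intro j _ hj
      rw [Matrix.one_apply_ne hj.symm]
      simp
    · intro h; exact absurd (Finset.mem_univ i) h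
  simp only [h2]
  rw [Finset.sum_div]

theorem pd_comp_act (g : GL2H) {p : Pt} (hp : p ∈ UH) {f : Pt → ℂ}
    (hf : DifferentiableAt ℝ f (act g p)) (e : Pt) :
    pd e (fun q => f (act g q)) p = fderiv ℝ f (act g p) (fderiv ℝ (act g) p e) := by
  unfold pd
  have h : (fun q => f (act g q)) = f ∘ act g := rfl
  rw [h, fderiv_comp p hf (differentiableAt_act g hp)]
  rfl

/-- isometry: the bilinear gradient product is invariant -/
theorem gdot_comp_act (g : GL2H) (hg : nrd g.1 = 1) {p : Pt} (hp : p ∈ UH) {f h : Pt → ℂ}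
    (hf : DifferentiableAt ℝ f (act g p)) (hh : DifferentiableAt ℝ h (act g p)) :
    gdot (fun q => f (act g q)) (fun q => h (act g q)) p = gdot f h (act g p) := by
  unfold gdot
  simp only [pd_comp_act g hp hf, pd_comp_act g hp hh]
  rw [sum_fderiv g hg hp]
  simp only [pd, act_eq]
  push_cast
  ring

theorem gsq_comp_act (g : GL2H) (hg : nrd g.1 = 1) {p : Pt} (hp : p ∈ UH) {f : Pt → ℂ}
    (hf : DifferentiableAt ℝ f (act g p)) :
    gsq (fun q => f (act g q)) p = gsq f (act g p) := by
  unfold gsq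
  simp only [pd_comp_act g hp hf]
  have h := sum_fderiv g hg hp (fderiv ℝ f (act g p))
    (Complex.conjCLE.toContinuousLinearMap.comp (fderiv ℝ f (act g p)))
  simp only [ContinuousLinearMap.comp_apply, ContinuousLinearEquiv.coe_coe,
    Complex.conjCLE_apply, Complex.mul_conj'] at h
  have h' : ∑ k : Fin 5, ‖fderiv ℝ f (act g p) (fderiv ℝ (act g) p (dir k))‖ ^ 2
      = (∑ k : Fin 5, ‖pd (dir k) f (act g p)‖ ^ 2) / (den g p) ^ 2 := by
    exact_mod_cast h
  rw [h']
  simp only [act_eq]
  ring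

theorem act_inv_act (g : GL2H) (hg : nrd g.1 = 1) {p : Pt} (hp : p ∈ UH) :
    act g⁻¹ (act g p) = p := by
  rw [← act_mul g⁻¹ g hg hp, inv_mul_cancel, act_one]

theorem act_act_inv (g : GL2H) (hg : nrd g.1 = 1) {p : Pt} (hp : p ∈ UH) :
    act g (act g⁻¹ p) = p := by
  rw [← act_mul g g⁻¹ (nrd_inv g hg) hp, mul_inv_cancel, act_one]

theorem image_act (g : GL2H) (hg : nrd g.1 = 1) : act g '' UH = UH := by
  apply Set.Subset.antisymm
  · rintro _ ⟨p, hp, rfl⟩
    exact act_mem g hp
  · intro p hp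
    exact ⟨act g⁻¹ p, act_mem g⁻¹ hp, act_act_inv g hg hp⟩

theorem injOn_act (g : GL2H) (hg : nrd g.1 = 1) : Set.InjOn (act g) UH := by
  intro p hp q hq h
  rw [← act_inv_act g hg hp, h, act_inv_act g hg hq]

theorem measurable_weight : Measurable fun p : Pt => ENNReal.ofReal ((p.2 ^ 5)⁻¹) :=
  ((measurable_snd.pow_const 5).inv).ennreal_ofReal

theorem lintegral_hyp (F : Pt → ENNReal) (hF : Measurable F) :
    ∫⁻ p, F p ∂hyp = ∫⁻ p in UH, ENNReal.ofReal ((p.2 ^ 5)⁻¹) * F p := by
  unfold hyp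
  rw [lintegral_withDensity_eq_lintegral_mul _ measurable_weight hF]
  rfl

/-- invariance of the hyperbolic measure -/
theorem measurePreserving_act (g : GL2H) (hg : nrd g.1 = 1) :
    MeasurePreserving (act g) hyp hyp := by
  refine ⟨measurable_act g, ?_⟩
  refine Measure.ext_of_lintegral _ fun F hF => ?_
  rw [lintegral_map hF (measurable_act g), lintegral_hyp _ hF,
    lintegral_hyp (fun a => F (act g a)) (hF.comp (measurable_act g))]
  have hms : MeasurableSet UH := isOpen_UH.measurableSet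
  have key := lintegral_image_eq_lintegral_abs_det_fderiv_mul (volume : Measure Pt) hms
    (fun p hp => (differentiableAt_act g hp).hasFDerivAt.hasFDerivWithinAt) (injOn_act g hg)
    (fun p => ENNReal.ofReal ((p.2 ^ 5)⁻¹) * F p)
  rw [image_act g hg] at key
  rw [key]
  refine setLIntegral_congr_fun hms fun p hp => ?_
  rw [abs_det_fderiv g hg hp, ← mul_assoc, ← ENNReal.ofReal_mul (by
    have := den_pos g hp; positivity)]
  congr 2
  have hD : 0 < den g p := den_pos g hp
  have hp' : (0 : ℝ) < p.2 := hp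
  rw [act_eq]
  field_simp

end Pool.Agent.Helper68.Ram5
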